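import Pool.Agent.N819.LT.Alex

/-!
# Labelled oriented trees with exactly one spanning decomposition: statements
-/

set_option autoImplicit false

namespace Pool.Agent.N819.UD

open Pool.Agent.TH625.LOG Pool.Agent.N819.LT

open Classical in
/-- The end `p e` for `e ∈ S`, the end `q e` for `e ∉ S`. -/
noncomputable def mp {V E : Type} (p q : E → V) (S : Set E) (e : E) : V := if e ∈ S then p e else q e

/-- The edges `{p e, lab e}`, `e ∈ S`, and `{q e, lab e}`, `e ∉ S`, form a connected graph on `V`. -/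
def Mix {V E : Type} (p q lab : E → V) (S : Set E) : Prop := Conn (mp p q S) lab

/-- Every set of vertices which is a union of components of the graph with the edges `{p e, lab e}`,
`e ∈ S`, is a union of components of the graph with the edges `{p e, lab e}`, `e : E`. -/
def Spans {V E : Type} (p lab : E → V) (S : Set E) : Prop :=
  ∀ P : V → Prop, (∀ e ∈ S, (P (p e) ↔ P (lab e))) → ∀ e, (P (p e) ↔ P (lab e))

/-- DUAL: dual functions of a spanning tree modulo two, and the expansion of a function -/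
def S_DUAL : Prop :=
  ∀ (V E : Type) [Fintype V] [Fintype E] [DecidableEq V] [DecidableEq E] (p lab : E → V),
    Fintype.card V = Fintype.card E + 1 → Conn p lab →
    ∃ a : E → V → ZMod 2,
      (∀ f e, a f (p e) + a f (lab e) = if e = f then 1 else 0) ∧
      ∀ (v : V → ZMod 2) (x y : V),
        v x + v y = ∑ f, (v (p f) + v (lab f)) * (a f x + a f y)

/-- CYC: a chordless alternating cycle -/
def S_CYC : Prop :=
  ∀ (E : Type) [Fintype E] [DecidableEq E] (P Q : E → E → Prop) (A B : Set E), A.Nonempty →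
    (∀ e0 ∈ A, ∃ e1 ∈ A, ∃ b ∈ B, P e1 b ∧ Q b e0) →
    ∃ (W : Finset E) (β σ : E → E), W.Nonempty ∧ (∀ e ∈ W, e ∈ A) ∧ (∀ e ∈ W, β e ∈ B) ∧
      (∀ e ∈ W, σ e ∈ W) ∧ (∀ e ∈ W, ∀ e' ∈ W, σ e = σ e' → e = e') ∧
      (∀ e ∈ W, ∀ e' ∈ W, (P e (β e') ↔ e = e')) ∧
      ∀ e ∈ W, ∀ e' ∈ W, (Q (β e) e' ↔ e' = σ e)

/-- EXCH: exchange along a chordless alternating cycle -/
def S_EXCH : Prop :=
  ∀ (V E : Type) [Fintype V] [Fintype E] [DecidableEq V] [DecidableEq E] (p q lab : E → V)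
    (S : Set E) (a : E → V → ZMod 2) (W : Finset E) (β σ : E → E),
    Fintype.card V = Fintype.card E + 1 →
    Spans p lab S →
    (∀ f e, a f (mp p q S e) + a f (lab e) = if e = f then 1 else 0) →
    (∀ (v : V → ZMod 2) (x y : V),
      v x + v y = ∑ f, (v (mp p q S f) + v (lab f)) * (a f x + a f y)) →
    W.Nonempty → (∀ e ∈ W, e ∉ S) → (∀ e ∈ W, β e ∈ S) → (∀ e ∈ W, σ e ∈ W) →
    (∀ e ∈ W, ∀ e' ∈ W, σ e = σ e' → e = e') →
    (∀ e ∈ W, ∀ e' ∈ W, (a (β e') (p e) + a (β e') (lab e) ≠ 0 ↔ e = e')) →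
    (∀ e ∈ W, ∀ e' ∈ W, (a e' (q (β e)) + a e' (lab (β e)) ≠ 0 ↔ e' = σ e)) →
    ∃ S' : Set E, S' ≠ S ∧ Mix p q lab S' ∧ Spans p lab S'

/-- MOD2: an element of the kernel of the boundary operator gives one modulo two -/
def S_MOD2 : Prop :=
  ∀ (V E : Type) [Fintype V] [Fintype E] [DecidableEq V] [DecidableEq E] (L : LOG V E),
    (∀ y : E → L.G → ZMod 2, {z : E × L.G | y z.1 z.2 ≠ 0}.Finite →
      (∀ v g, ∑ e, ((if L.ini e = v then y e g else 0) +
        (if L.lab e = v then y e (g * (L.gen (L.ini e))⁻¹) else 0) +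
        (if L.lab e = v then y e g else 0) +
        (if L.ter e = v then y e (g * (L.gen (L.lab e))⁻¹) else 0)) = 0) →
      ∀ e g, y e g = 0) →
    ∀ c : (E × L.G) →₀ ℤ, L.bdry c = 0 → c = 0

end Pool.Agent.N819.UD
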