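import Pool.Agent.N819.UD.Stm

/-!
# Labelled oriented trees with exactly one spanning decomposition: the chains of lowest degree
-/

set_option autoImplicit false

namespace Pool.Agent.N819.UD

open Pool.Agent.TH625.LOG Pool.Agent.N819.LT Finset

/-- The chain `y` modulo two lies in the kernel of the boundary operator. -/
def Ker {V E G : Type} [Fintype E] [DecidableEq V] [Group G] (x : V → G) (p q lab : E → V)
    (y : E → G → ZMod 2) : Prop :=
  ∀ v g, ∑ e, ((if p e = v then y e g else 0) +
        (if lab e = v then y e (g * (x (p e))⁻¹) else 0) +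
        (if lab e = v then y e g else 0) +
        (if q e = v then y e (g * (x (lab e))⁻¹) else 0)) = 0

theorem sum_ind2 {V E : Type} [Fintype V] [Fintype E] [DecidableEq V] (u : V → ZMod 2) (w : E → V)
    (F : E → V → ZMod 2) :
    ∑ v, u v * ∑ e, (if w e = v then F e v else 0) = ∑ e, u (w e) * F e (w e) := by
  simp only [Finset.mul_sum, mul_ite, mul_zero]
  rw [Finset.sum_comm]
  refine Finset.sum_congr rfl fun e _ => ?_
  rw [Finset.sum_eq_single (w e)]
  · rw [if_pos rfl]
  · intro v _ hv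
    rw [if_neg fun h => hv h.symm]
  · intro h; exact absurd (Finset.mem_univ _) h

theorem z2 (a b : ZMod 2) (h : a + b = 0) : a = b := by
  revert a b; decide

theorem z2' (a b : ZMod 2) (h : a = 0 ↔ b = 0) : a = b := by
  revert a b; decide

theorem z2s (a : ZMod 2) : a + a = 0 := by
  revert a; decide

section

variable {V E G : Type} [Fintype V] [Fintype E] [DecidableEq V] [DecidableEq E] [Group G]
  (x : V → G) (χ : G →* Multiplicative ℤ) (hχ : ∀ v, χ (x v) = Multiplicative.ofAdd 1)
  (p q lab : E → V) (y : E → G → ZMod 2) (hy : Ker x p q lab y) (d : ℤ)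
  (hmin : ∀ e g, y e g ≠ 0 → d ≤ Multiplicative.toAdd (χ g))

include hχ in
theorem deg_inv (g : G) (v : V) :
    Multiplicative.toAdd (χ (g * (x v)⁻¹)) = Multiplicative.toAdd (χ g) - 1 := by
  rw [map_mul, map_inv, hχ]
  rfl

include hχ hy hmin in
theorem level_one (k : G) (hk : Multiplicative.toAdd (χ k) = d) (u : V → ZMod 2) :
    ∑ e, y e k * (u (p e) + u (lab e)) = 0 := by
  have h0 : ∀ e v, y e (k * (x v)⁻¹) = 0 := by
    intro e v
    by_contra hne
    have := hmin e _ hne
    rw [deg_inv x χ hχ] at this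
    omega
  have h1 : ∑ v, u v * ∑ e, ((if p e = v then y e k else 0) + (if lab e = v then y e k else 0)) = 0 := by
    refine Finset.sum_eq_zero fun v _ => ?_
    have := hy v k
    simp only [h0, ite_self, add_zero] at this
    rw [this, mul_zero]
  simp only [Finset.sum_add_distrib, mul_add] at h1
  have h2 := sum_ind2 u p (fun e _ => y e k)
  have h3 := sum_ind2 u lab (fun e _ => y e k)
  rw [h2, h3, ← Finset.sum_add_distrib] at h1
  rw [← h1]
  refine Finset.sum_congr rfl fun e _ => ?_
  ring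

include hχ hy hmin in
theorem level_two (a : V → ZMod 2) (ha : ∀ e, a (p e) = a (lab e)) (h : G)
    (hh : Multiplicative.toAdd (χ h) = d + 1) :
    ∑ e, (a (lab e) + a (q e)) * y e (h * (x (lab e))⁻¹) = 0 := by
  have h1 : ∑ v, a v * ∑ e, ((if p e = v then y e h else 0) +
        (if lab e = v then y e (h * (x (p e))⁻¹) else 0) +
        (if lab e = v then y e h else 0) +
        (if q e = v then y e (h * (x (lab e))⁻¹) else 0)) = 0 := by
    refine Finset.sum_eq_zero fun v _ => ?_
    rw [hy v h, mul_zero]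
  simp only [Finset.sum_add_distrib, mul_add] at h1
  have e1 := sum_ind2 a p (fun e _ => y e h)
  have e2 := sum_ind2 a lab (fun e _ => y e (h * (x (p e))⁻¹))
  have e3 := sum_ind2 a lab (fun e _ => y e h)
  have e4 := sum_ind2 a q (fun e _ => y e (h * (x (lab e))⁻¹))
  rw [e1, e2, e3, e4] at h1
  have h2 : ∑ v, ∑ e, y e (h * (x v)⁻¹) * ((if p e = v then a v else 0) + (if lab e = v then a v else 0)) = 0 := by
    refine Finset.sum_eq_zero fun v _ => ?_
    have := level_one x χ hχ p q lab y hy d hmin (h * (x v)⁻¹) (by rw [deg_inv x χ hχ]; omega)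
      (fun w => if w = v then a v else 0)
    exact this
  have h3 : ∑ v, ∑ e, y e (h * (x v)⁻¹) * ((if p e = v then a v else 0) + (if lab e = v then a v else 0)) =
      ∑ e, (a (lab e) * y e (h * (x (p e))⁻¹) + a (lab e) * y e (h * (x (lab e))⁻¹)) := by
    rw [Finset.sum_comm]
    refine Finset.sum_congr rfl fun e _ => ?_
    simp only [mul_add, mul_ite, mul_zero, Finset.sum_add_distrib, Finset.sum_ite_eq, Finset.mem_univ,
      if_true]
    rw [ha e]
    ring
  rw [h3] at h2
  have h4 : ∑ e, (a (lab e) + a (q e)) * y e (h * (x (lab e))⁻¹) =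
      (∑ e, a (p e) * y e h + ∑ e, a (lab e) * y e (h * (x (p e))⁻¹) + ∑ e, a (lab e) * y e h +
        ∑ e, a (q e) * y e (h * (x (lab e))⁻¹)) +
      ∑ e, (a (lab e) * y e (h * (x (p e))⁻¹) + a (lab e) * y e (h * (x (lab e))⁻¹)) := by
    simp only [← Finset.sum_add_distrib]
    refine Finset.sum_congr rfl fun e _ => ?_
    rw [ha e]
    have t1 := z2s (a (lab e) * y e h)
    have t2 := z2s (a (lab e) * y e (h * (x (p e))⁻¹))
    linear_combination - t1 - t2
  rw [h4, h1, h2, add_zero]

end

/-- **The core.** -/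
theorem core (hD : S_DUAL) (hC : S_CYC) (hX : S_EXCH) {V E G : Type} [Fintype V] [Fintype E]
    [DecidableEq V] [DecidableEq E] [Group G] (x : V → G) (χ : G →* Multiplicative ℤ)
    (hχ : ∀ v, χ (x v) = Multiplicative.ofAdd 1) (p q lab : E → V)
    (hcard : Fintype.card V = Fintype.card E + 1)
    (hu : ∃! S : Set E, Mix p q lab S ∧ Spans p lab S) (y : E → G → ZMod 2)
    (hfin : {z : E × G | y z.1 z.2 ≠ 0}.Finite) (hy : Ker x p q lab y) : ∀ e g, y e g = 0 := by
  classical
  obtain ⟨S, ⟨hM, hS⟩, huniq⟩ := hu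
  obtain ⟨a, ha, hexp⟩ := hD V E (mp p q S) lab hcard hM
  by_contra hne
  push Not at hne
  obtain ⟨e', g', hne⟩ := hne
  obtain ⟨⟨e0, g0⟩, h0, hmin0⟩ := Set.exists_min_image {z : E × G | y z.1 z.2 ≠ 0}
    (fun z => Multiplicative.toAdd (χ z.2)) hfin ⟨(e', g'), hne⟩
  have hmin : ∀ e g, y e g ≠ 0 → Multiplicative.toAdd (χ g0) ≤ Multiplicative.toAdd (χ g) :=
    fun e g h => hmin0 (e, g) h
  have hmpS : ∀ e ∈ S, mp p q S e = p e := fun e he => by unfold mp; exact if_pos he
  have hmpN : ∀ e, e ∉ S → mp p q S e = q e := fun e he => by unfold mp; exact if_neg he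
  -- the dual functions outside `S` are constant on the initial components
  have hconst : ∀ f, f ∉ S → ∀ e, a f (p e) = a f (lab e) := by
    intro f hf e
    refine z2' _ _ (hS (fun z => a f z = 0) ?_ e)
    intro e he
    have h1 := ha f e
    have hef : e ≠ f := by rintro rfl; exact hf he
    rw [hmpS e he, if_neg hef] at h1
    rw [z2 _ _ h1]
  have claim1 : ∀ b ∈ S, ∀ k, Multiplicative.toAdd (χ k) = Multiplicative.toAdd (χ g0) →
      y b k ≠ 0 → ∃ e, e ∉ S ∧ y e k ≠ 0 ∧ a b (p e) + a b (lab e) ≠ 0 := by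
    intro b hb k hk hyb
    by_contra hcon
    push Not at hcon
    have h1 := level_one x χ hχ p q lab y hy _ hmin k hk (a b)
    rw [Finset.sum_eq_single b] at h1
    · have h2 := ha b b
      rw [hmpS b hb, if_pos rfl] at h2
      rw [h2, mul_one] at h1
      exact hyb h1
    · intro e _ he
      by_cases heS : e ∈ S
      · have h2 := ha b e
        rw [hmpS e heS, if_neg he] at h2
        rw [h2, mul_zero]
      · by_cases hye : y e k = 0
        · rw [hye, zero_mul]
        · rw [hcon e heS hye, mul_zero]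
    · intro h; exact absurd (Finset.mem_univ _) h
  let A : Set E := {e | e ∉ S ∧ ∃ k, Multiplicative.toAdd (χ k) = Multiplicative.toAdd (χ g0) ∧ y e k ≠ 0}
  have hA : A.Nonempty := by
    by_cases he0 : e0 ∈ S
    · obtain ⟨e, h1, h2, -⟩ := claim1 e0 he0 g0 rfl h0
      exact ⟨e, h1, g0, rfl, h2⟩
    · exact ⟨e0, he0, g0, rfl, h0⟩
  have hpred : ∀ e0 ∈ A, ∃ e1 ∈ A, ∃ b ∈ S, (a b (p e1) + a b (lab e1) ≠ 0) ∧
      (a e0 (q b) + a e0 (lab b) ≠ 0) := by
    rintro f ⟨hf, k, hk, hyk⟩
    have h1 := level_two x χ hχ p q lab y hy _ hmin (a f) (hconst f hf) (k * x (lab f)) (by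
      rw [map_mul, hχ, ← hk]; rfl)
    have hex : ∃ b ∈ S, (a f (lab b) + a f (q b)) * y b (k * x (lab f) * (x (lab b))⁻¹) ≠ 0 := by
      by_contra hcon
      push Not at hcon
      rw [Finset.sum_eq_single f] at h1
      · rw [mul_inv_cancel_right] at h1
        have h2 := ha f f
        rw [hmpN f hf, if_pos rfl, add_comm] at h2
        rw [h2, one_mul] at h1
        exact hyk h1
      · intro e _ he
        by_cases heS : e ∈ S
        · exact hcon e heS
        · have h2 := ha f e
          rw [hmpN e heS, if_neg he, add_comm] at h2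
          rw [h2, zero_mul]
      · intro h; exact absurd (Finset.mem_univ _) h
    obtain ⟨b, hb, hbn⟩ := hex
    have hb1 := left_ne_zero_of_mul hbn
    have hb2 := right_ne_zero_of_mul hbn
    have hdeg : Multiplicative.toAdd (χ (k * x (lab f) * (x (lab b))⁻¹)) =
        Multiplicative.toAdd (χ g0) := by
      rw [deg_inv x χ hχ, map_mul, hχ, ← hk]
      simp
    obtain ⟨e1, g1, g2, g3⟩ := claim1 b hb _ hdeg hb2
    exact ⟨e1, ⟨g1, _, hdeg, g2⟩, b, hb, g3, by rwa [add_comm]⟩
  obtain ⟨W, β, σ, hW, hWA, hβ, hσ, hinj, hP, hQ⟩ := hC E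
    (fun e b => a b (p e) + a b (lab e) ≠ 0) (fun b e => a e (q b) + a e (lab b) ≠ 0) A S hA hpred
  obtain ⟨S', hne', hM', hS'⟩ := hX V E p q lab S a W β σ hcard hS ha hexp hW
    (fun e he => (hWA e he).1) hβ hσ hinj hP hQ
  exact hne' (huniq S' ⟨hM', hS'⟩)

end Pool.Agent.N819.UD
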