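import Pool.Agent.N819.UD.Main
import Pool.Agent.N667.UD_CYC
import Pool.Agent.N195.UD_DUAL
import Pool.Agent.N281.UD_EXCH
import Pool.Agent.N249.UD_MOD2

/-!
# Labelled oriented trees with exactly one spanning decomposition: assembly
-/

set_option autoImplicit false

namespace Pool.Agent.N819.UD

open Pool.Agent.TH625.LOG Pool.Agent.N819.LT Finset

variable {V E : Type} [Fintype V] [Fintype E] [DecidableEq V] [DecidableEq E]

theorem fin_ini (L : LOG V E) (hcard : Fintype.card V = Fintype.card E + 1)
    (hu : ∃! S : Set E, Mix L.ini L.ter L.lab S ∧ Spans L.ini L.lab S) (S' : Set E)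
    (c : (S' × (sub L S').G) →₀ ℤ) (hc : (sub L S').bdry c = 0) : c = 0 :=
  inj_ini Pool.Agent.N195.UDDUAL.main Pool.Agent.N667.UDC.main Pool.Agent.N281.UDEXCH.main
    Pool.Agent.N249.UD_MOD2.main L hcard hu S' c hc

theorem fin_ter (L : LOG V E) (hcard : Fintype.card V = Fintype.card E + 1)
    (hu : ∃! S : Set E, Mix L.ter L.ini L.lab S ∧ Spans L.ter L.lab S) (S' : Set E)
    (c : (S' × (sub L S').G) →₀ ℤ) (hc : (sub L S').bdry c = 0) : c = 0 :=
  inj_ter Pool.Agent.N195.UDDUAL.main Pool.Agent.N667.UDC.main Pool.Agent.N281.UDEXCH.main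
    Pool.Agent.N249.UD_MOD2.main L hcard hu S' c hc

/-- If the graph of the edges `{p e, lab e}` is a tree then there is exactly one spanning
decomposition. -/
theorem unique_of_tree (p q lab : E → V) (hcard : Fintype.card V = Fintype.card E + 1)
    (h : Conn p lab) : ∃! S : Set E, Mix p q lab S ∧ Spans p lab S := by
  classical
  refine ⟨Set.univ, ⟨?_, ?_⟩, ?_⟩
  · have : mp p q Set.univ = p := by
      funext e
      unfold mp
      exact if_pos (Set.mem_univ e)
    unfold Mix
    rw [this]
    exact h
  · intro P hP e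
    exact hP e (Set.mem_univ e)
  · rintro S ⟨-, hS⟩
    rw [Set.eq_univ_iff_forall]
    intro e
    by_contra he
    obtain ⟨a, ha, -⟩ := Pool.Agent.N195.UDDUAL.main V E p lab hcard h
    have h1 := hS (fun z => a e z = 0) (by
      intro e' he'
      have hne : e' ≠ e := by rintro rfl; exact he he'
      have h2 := ha e e'
      rw [if_neg hne] at h2
      rw [z2 _ _ h2]) e
    have h3 := ha e e
    rw [if_pos rfl, z2' _ _ h1, z2s] at h3
    exact zero_ne_one h3

end Pool.Agent.N819.UD
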