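import Pool.Agent.N819.UD.Sol3
import Pool.Agent.N819.UD.Fin
import Pool.Agent.N933.UE_TREE
import Pool.Agent.N723.UE_FIX
import Pool.Agent.N806.UE_PER
import Pool.Agent.N344.UE_KLI
import Pool.Agent.N136.UE_COC

/-!
# Local indicability for labelled oriented trees with exactly one spanning decomposition
-/

set_option autoImplicit false

namespace Pool.Agent.N819.UD

open Pool.Agent.TH625.LOG Pool.Agent.N819.LT Finset

/-- the reversed labelled oriented graph -/
def revL {V E : Type} (L : LOG V E) : LOG V E := ⟨L.ter, L.ini, L.lab⟩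

theorem locInd_rev {V E : Type} (M : LOG V E) (h : LocInd (revL M).G) : LocInd M.G := by
  let f : M.G →* (revL M).G := PresentedGroup.toGroup (f := fun v => ((revL M).gen v)⁻¹) (by
    rintro _ ⟨e, rfl⟩
    have h1 := Pool.Agent.N819.UD.gen_rel (revL M) e
    have h2 : (revL M).gen (M.ter e) * (revL M).gen (M.lab e) =
      (revL M).gen (M.lab e) * (revL M).gen (M.ini e) := h1
    simp only [LOG.rel, map_mul, map_inv, FreeGroup.lift_apply_of, inv_inv]
    rw [← mul_inv_rev, ← h2]
    group)
  let g : (revL M).G →* M.G := PresentedGroup.toGroup (f := fun v => (M.gen v)⁻¹) (by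
    rintro _ ⟨e, rfl⟩
    have h2 := Pool.Agent.N819.UD.gen_rel M e
    show FreeGroup.lift (fun v => (M.gen v)⁻¹) (FreeGroup.of (M.ter e) * FreeGroup.of (M.lab e) *
      (FreeGroup.of (M.ini e))⁻¹ * (FreeGroup.of (M.lab e))⁻¹) = 1
    simp only [map_mul, map_inv, FreeGroup.lift_apply_of, inv_inv]
    rw [← mul_inv_rev, ← h2]
    group)
  have hgf : ∀ x, g (f x) = x := by
    intro x
    have h3 : g.comp f = MonoidHom.id _ := by
      apply PresentedGroup.ext
      intro v
      show g (f (M.gen v)) = M.gen v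
      have h4 : f (M.gen v) = ((revL M).gen v)⁻¹ := PresentedGroup.toGroup.of _
      have h5 : g ((revL M).gen v) = (M.gen v)⁻¹ := PresentedGroup.toGroup.of _
      rw [h4, map_inv, h5, inv_inv]
    exact DFunLike.congr_fun h3 x
  intro H hH hne
  refine h.of_hom hH f ?_
  intro hle
  apply hne
  rw [Subgroup.eq_bot_iff_forall]
  intro x hx
  have h6 : f x = 1 := hle hx
  rw [← hgf x, h6, map_one]

variable {V E : Type} [Fintype V] [Fintype E] [DecidableEq V] [DecidableEq E]

theorem li_ini (L : LOG V E) (hcard : Fintype.card V = Fintype.card E + 1)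
    (hu : ∃! S : Set E, Mix L.ini L.ter L.lab S ∧ Spans L.ini L.lab S) (R : Set E) :
    LocInd (sub L R).G := by
  have hne : Nonempty V := by
    rw [← Fintype.card_pos_iff, hcard]; omega
  obtain ⟨r⟩ := hne
  obtain ⟨η, φ, Ψ, h1, h2, h3⟩ := sol' Pool.Agent.N195.UDDUAL.main Pool.Agent.N667.UDC.main
    Pool.Agent.N281.UDEXCH.main Pool.Agent.N933.UE.main Pool.Agent.N723.UE_FIX.main
    Pool.Agent.N806.UE_PER.main L hcard hu r R
  refine LocInd.ext locInd_int (chi (sub L R)) fun H hH hne hk => ?_
  refine Pool.Agent.N344.UEK.main V R (Multiplicative ℤ) (sub L R) (chi (sub L R)) ?_ H hH hk hne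
  exact Pool.Agent.N136.UE.main V R (FreeGroup (E ⊕ E × ℕ)) (sub L R) r η φ Ψ
    (fun e => h1 e e.2) h2 h3

theorem li_ter (L : LOG V E) (hcard : Fintype.card V = Fintype.card E + 1)
    (hu : ∃! S : Set E, Mix L.ter L.ini L.lab S ∧ Spans L.ter L.lab S) (R : Set E) :
    LocInd (sub L R).G :=
  locInd_rev (sub L R) (li_ini (revL L) hcard hu R)

end Pool.Agent.N819.UD
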