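import Pool.Agent.N819.UD.Core

/-!
# Labelled oriented trees with exactly one spanning decomposition: subcomplexes
-/

set_option autoImplicit false

namespace Pool.Agent.N819.UD

open Pool.Agent.TH625.LOG Pool.Agent.N819.LT Finset

variable {V E : Type}

/-- the exponent sum -/
def chi (L : LOG V E) : L.G →* Multiplicative ℤ :=
  PresentedGroup.toGroup (f := fun _ => Multiplicative.ofAdd 1) (by
    rintro _ ⟨e, rfl⟩
    simp [LOG.rel])

theorem chi_gen (L : LOG V E) (v : V) : chi L (L.gen v) = Multiplicative.ofAdd 1 :=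
  PresentedGroup.toGroup.of _

theorem gen_rel (L : LOG V E) (e : E) :
    L.gen (L.ini e) * L.gen (L.lab e) = L.gen (L.lab e) * L.gen (L.ter e) := by
  have h : (PresentedGroup.mk (Set.range L.rel) (L.rel e)) = 1 :=
    (PresentedGroup.one_of_mem ⟨e, rfl⟩)
  have h2 : L.gen (L.ini e) * L.gen (L.lab e) * (L.gen (L.ter e))⁻¹ * (L.gen (L.lab e))⁻¹ = 1 := by
    rw [← h]
    rfl
  rw [mul_inv_eq_one, mul_inv_eq_iff_eq_mul] at h2
  exact h2

theorem rel_inv (L : LOG V E) (e : E) (g : L.G) :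
    g * (L.gen (L.lab e))⁻¹ * (L.gen (L.ini e))⁻¹ = g * (L.gen (L.ter e))⁻¹ * (L.gen (L.lab e))⁻¹ := by
  rw [mul_assoc, mul_assoc, ← mul_inv_rev, ← mul_inv_rev, gen_rel]

open Classical in
/-- extension of a chain by zero -/
noncomputable def ext {G : Type} (S : Set E) (y : S → G → ZMod 2) (e : E) (g : G) : ZMod 2 :=
  if h : e ∈ S then y ⟨e, h⟩ g else 0

theorem ext_mem {G : Type} (S : Set E) (y : S → G → ZMod 2) (e : S) (g : G) :
    ext S y e g = y e g := by
  unfold ext
  rw [dif_pos e.2]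

theorem ext_not {G : Type} (S : Set E) (y : S → G → ZMod 2) (e : E) (he : e ∉ S) (g : G) :
    ext S y e g = 0 := by
  unfold ext
  rw [dif_neg he]

theorem ker_ext {G : Type} [Group G] [Fintype E] [DecidableEq V] (S : Set E) [Fintype S]
    (x : V → G) (p q lab : E → V) (y : S → G → ZMod 2)
    (hy : Ker x (fun e : S => p e) (fun e : S => q e) (fun e : S => lab e) y) :
    Ker x p q lab (ext S y) := by
  intro v g
  refine Eq.trans (Eq.symm ?_) (hy v g)
  refine Fintype.sum_of_injective (fun e : S => (e : E)) Subtype.val_injective _ _ ?_ ?_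
  · intro e he
    have he' : e ∉ S := fun h => he ⟨⟨e, h⟩, rfl⟩
    simp only [ext_not S y e he', ite_self, add_zero]
  · intro e
    simp only [ext_mem]

theorem fin_ext {G : Type} (S : Set E) (y : S → G → ZMod 2)
    (h : {z : S × G | y z.1 z.2 ≠ 0}.Finite) : {z : E × G | ext S y z.1 z.2 ≠ 0}.Finite := by
  refine (h.image fun z : S × G => ((z.1 : E), z.2)).subset ?_
  rintro ⟨e, g⟩ hz
  by_cases he : e ∈ S
  · refine ⟨(⟨e, he⟩, g), ?_, rfl⟩
    have := ext_mem S y ⟨e, he⟩ g
    simp only [Set.mem_ofPred_eq] at hz ⊢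
    rwa [this] at hz
  · exact absurd (ext_not S y e he g) hz

/-- the reversed chain lies in the kernel for the reversed labelled oriented graph -/
theorem ker_rev [Fintype E] [DecidableEq V] (L : LOG V E) (y : E → L.G → ZMod 2)
    (hy : Ker L.gen L.ini L.ter L.lab y) :
    Ker (fun v => (L.gen v)⁻¹) L.ter L.ini L.lab
      (fun e g => y e (g * (L.gen (L.lab e))⁻¹ * (L.gen (L.ini e))⁻¹)) := by
  intro v g
  have h := hy v (g * (L.gen v)⁻¹)
  refine Eq.trans (Finset.sum_congr rfl fun e _ => ?_) h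
  have t1 : (if L.ter e = v then y e (g * (L.gen (L.lab e))⁻¹ * (L.gen (L.ini e))⁻¹) else 0) =
      if L.ter e = v then y e (g * (L.gen v)⁻¹ * (L.gen (L.lab e))⁻¹) else 0 := by
    split_ifs with h1
    · subst h1
      rw [rel_inv]
    · rfl
  have t2 : (if L.lab e = v then y e (g * ((L.gen (L.ter e))⁻¹)⁻¹ * (L.gen (L.lab e))⁻¹ *
        (L.gen (L.ini e))⁻¹) else 0) =
      if L.lab e = v then y e (g * (L.gen v)⁻¹) else 0 := by
    split_ifs with h1
    · subst h1
      rw [rel_inv, inv_inv, mul_inv_cancel_right]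
    · rfl
  have t3 : (if L.lab e = v then y e (g * (L.gen (L.lab e))⁻¹ * (L.gen (L.ini e))⁻¹) else 0) =
      if L.lab e = v then y e (g * (L.gen v)⁻¹ * (L.gen (L.ini e))⁻¹) else 0 := by
    split_ifs with h1
    · subst h1
      rfl
    · rfl
  have t4 : (if L.ini e = v then y e (g * ((L.gen (L.lab e))⁻¹)⁻¹ * (L.gen (L.lab e))⁻¹ *
        (L.gen (L.ini e))⁻¹) else 0) =
      if L.ini e = v then y e (g * (L.gen v)⁻¹) else 0 := by
    split_ifs with h1
    · subst h1
      rw [inv_inv, mul_inv_cancel_right]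
    · rfl
  beta_reduce
  rw [t1, t2, t3, t4]
  ring

/-- the initial version -/
theorem inj_ini (hD : S_DUAL) (hC : S_CYC) (hX : S_EXCH) (h2 : S_MOD2) [Fintype V] [Fintype E]
    [DecidableEq V] [DecidableEq E] (L : LOG V E) (hcard : Fintype.card V = Fintype.card E + 1)
    (hu : ∃! S : Set E, Mix L.ini L.ter L.lab S ∧ Spans L.ini L.lab S) (S' : Set E)
    (c : (S' × (sub L S').G) →₀ ℤ) (hc : (sub L S').bdry c = 0) : c = 0 := by
  classical
  refine h2 V S' (sub L S') ?_ c hc
  intro y hfin hy e g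
  have h := core hD hC hX (sub L S').gen (chi (sub L S')) (chi_gen _) L.ini L.ter L.lab hcard hu
    (ext S' y) (fin_ext S' y hfin) (ker_ext S' _ L.ini L.ter L.lab y hy) e g
  rwa [ext_mem] at h

/-- the terminal version -/
theorem inj_ter (hD : S_DUAL) (hC : S_CYC) (hX : S_EXCH) (h2 : S_MOD2) [Fintype V] [Fintype E]
    [DecidableEq V] [DecidableEq E] (L : LOG V E) (hcard : Fintype.card V = Fintype.card E + 1)
    (hu : ∃! S : Set E, Mix L.ter L.ini L.lab S ∧ Spans L.ter L.lab S) (S' : Set E)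
    (c : (S' × (sub L S').G) →₀ ℤ) (hc : (sub L S').bdry c = 0) : c = 0 := by
  classical
  refine h2 V S' (sub L S') ?_ c hc
  intro y hfin hy e g
  let M := sub L S'
  let y' : S' → M.G → ZMod 2 := fun e g => y e (g * (M.gen (M.lab e))⁻¹ * (M.gen (M.ini e))⁻¹)
  have hy' : Ker (fun v => (M.gen v)⁻¹) M.ter M.ini M.lab y' := ker_rev M y hy
  have hfin' : {z : S' × M.G | y' z.1 z.2 ≠ 0}.Finite := by
    refine (hfin.preimage (f := fun z : S' × M.G =>
      (z.1, z.2 * (M.gen (M.lab z.1))⁻¹ * (M.gen (M.ini z.1))⁻¹)) ?_).subset ?_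
    · rintro ⟨e1, g1⟩ _ ⟨e2, g2⟩ _ h
      simp only [Prod.mk.injEq] at h
      obtain ⟨h1, h3⟩ := h
      subst h1
      simp only [mul_left_inj] at h3
      rw [h3]
    · intro z hz
      exact hz
  have hχ : ∀ v, (chi M)⁻¹ ((M.gen v)⁻¹) = Multiplicative.ofAdd 1 := by
    intro v
    rw [MonoidHom.inv_apply, map_inv, inv_inv, chi_gen]
  have h := core hD hC hX (fun v => (M.gen v)⁻¹) (chi M)⁻¹ hχ L.ter L.ini L.lab hcard hu
    (ext S' y') (fin_ext S' y' hfin') (ker_ext S' _ L.ter L.ini L.lab y' hy') e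
    (g * M.gen (M.ini e) * M.gen (M.lab e))
  rw [ext_mem] at h
  have h3 : y' e (g * M.gen (M.ini e) * M.gen (M.lab e)) = y e g := by
    change y e (g * M.gen (M.ini e) * M.gen (M.lab e) * (M.gen (M.lab e))⁻¹ * (M.gen (M.ini e))⁻¹) = _
    rw [mul_inv_cancel_right, mul_inv_cancel_right]
  rwa [h3] at h

end Pool.Agent.N819.UD
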