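import Pool.Agent.N819.UD.Stm2

/-!
# The equations between the generators over a free group
-/

set_option autoImplicit false

namespace Pool.Agent.N819.UD

open Pool.Agent.TH625.LOG Pool.Agent.N819.LT Finset

section

variable {V E : Type} [Fintype V] [Fintype E] [DecidableEq V] [DecidableEq E] (p q lab : E → V)
  (S : Set E) (a : E → V → ZMod 2)

/-- the arcs of the exchange graph between the edges outside `S` -/
def Arc (e f : E) : Prop :=
  e ∉ S ∧ f ∉ S ∧ ∃ b ∈ S, (a b (p e) + a b (lab e) ≠ 0) ∧ (a f (q b) + a f (lab b) ≠ 0)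

theorem no_pred (hC : S_CYC) (hX : S_EXCH) (hcard : Fintype.card V = Fintype.card E + 1)
    (hS : Spans p lab S) (huniq : ∀ S', Mix p q lab S' ∧ Spans p lab S' → S' = S)
    (ha : ∀ f e, a f (mp p q S e) + a f (lab e) = if e = f then 1 else 0)
    (hexp : ∀ (v : V → ZMod 2) (x y : V),
      v x + v y = ∑ f, (v (mp p q S f) + v (lab f)) * (a f x + a f y))
    (B : Set E) (hB : B.Nonempty) (h : ∀ e ∈ B, ∃ f ∈ B, Arc p q lab S a f e) : False := by
  have hBS : ∀ e ∈ B, e ∉ S := by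
    intro e he
    obtain ⟨f, -, h1⟩ := h e he
    exact h1.2.1
  obtain ⟨W, β, σ, hW, hWA, hβ, hσ, hinj, hP, hQ⟩ := hC E
    (fun e b => a b (p e) + a b (lab e) ≠ 0) (fun b e => a e (q b) + a e (lab b) ≠ 0) B S hB (by
      intro e he
      obtain ⟨f, hf, h1⟩ := h e he
      obtain ⟨b, hb, h2⟩ := h1.2.2
      exact ⟨f, hf, b, hb, h2⟩)
  obtain ⟨S', hne', hM', hS'⟩ := hX V E p q lab S a W β σ hcard hS ha hexp hW
    (fun e he => hBS e (hWA e he)) hβ hσ hinj hP hQ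
  exact hne' (huniq S' ⟨hM', hS'⟩)

variable {p q lab S a}

theorem const_of (ha : ∀ f e, a f (mp p q S e) + a f (lab e) = if e = f then 1 else 0)
    (hS : Spans p lab S) (f : E) (hf : f ∉ S) (e : E) : a f (p e) = a f (lab e) := by
  refine z2' _ _ (hS (fun z => a f z = 0) ?_ e)
  intro e he
  have h1 := ha f e
  have hef : e ≠ f := by rintro rfl; exact hf he
  have h2 : mp p q S e = p e := by unfold mp; exact if_pos he
  rw [h2, if_neg hef] at h1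
  rw [z2 _ _ h1]

theorem same_of (ha : ∀ f e, a f (mp p q S e) + a f (lab e) = if e = f then 1 else 0)
    (hS : Spans p lab S) (f : E) (hf : f ∉ S) (e b : E) (hb : b ∈ S)
    (h : a b (p e) + a b (lab e) ≠ 0) : a f (lab e) = a f (lab b) := by
  classical
  by_contra hne
  apply h
  have hmp : ∀ e ∈ S, mp p q S e = p e := fun e he => by unfold mp; exact if_pos he
  have h1 := z2' _ _ (hS (fun z => (if a f z = a f (lab b) then (0 : ZMod 2) else a b z) = 0) (by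
    intro e' he'
    have h2 := const_of ha hS f hf e'
    by_cases hc : a f (lab e') = a f (lab b)
    · simp only [h2, hc, if_true]
    · simp only [h2, hc, if_false]
      have h3 : e' ≠ b := by rintro rfl; exact hc rfl
      have h4 := ha b e'
      rw [hmp e' he', if_neg h3] at h4
      rw [z2 _ _ h4]) e)
  simp only [const_of ha hS f hf e, hne, if_false] at h1
  rw [h1, z2s]

theorem diag (hT : S_TREE)
    (ha : ∀ f e, a f (mp p q S e) + a f (lab e) = if e = f then 1 else 0)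
    (hexp : ∀ (v : V → ZMod 2) (x y : V),
      v x + v y = ∑ f, (v (mp p q S f) + v (lab f)) * (a f x + a f y))
    {H : Type} [Group H] (η₁ η₂ : V → H) (x y : V)
    (h : ∀ f, a f x + a f y ≠ 0 →
      (η₁ (lab f))⁻¹ * η₁ (mp p q S f) = (η₂ (lab f))⁻¹ * η₂ (mp p q S f)) :
    (η₁ x)⁻¹ * η₁ y = (η₂ x)⁻¹ * η₂ y := by
  have h1 := hT V E (mp p q S) lab a ha hexp (H × H) (fun v => (η₁ v, η₂ v)) x y
  have h2 : Subgroup.closure {h : H × H | ∃ f, a f x + a f y ≠ 0 ∧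
      h = ((η₁ (lab f), η₂ (lab f)) : H × H)⁻¹ * (η₁ (mp p q S f), η₂ (mp p q S f))} ≤
      (MonoidHom.fst H H).eqLocus (MonoidHom.snd H H) := by
    rw [Subgroup.closure_le]
    rintro _ ⟨f, hf, rfl⟩
    exact h f hf
  exact h2 h1

/-- the key step: the right hand side of the equation of `e` only depends on the unknowns of the
successors of `e` -/
theorem key (hT : S_TREE)
    (ha : ∀ f e, a f (mp p q S e) + a f (lab e) = if e = f then 1 else 0)
    (hexp : ∀ (v : V → ZMod 2) (x y : V),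
      v x + v y = ∑ f, (v (mp p q S f) + v (lab f)) * (a f x + a f y)) (hS : Spans p lab S)
    {F H : Type} [Group F] [Group H] (u : E → F) (α Φ₁ Φ₂ : F →* H) (η₁ η₂ : V → H)
    (h1 : ∀ b ∈ S, (η₁ (lab b))⁻¹ * η₁ (p b) = α (u b))
    (h2 : ∀ b ∈ S, (η₂ (lab b))⁻¹ * η₂ (p b) = α (u b))
    (g1 : ∀ b ∈ S, Φ₁ (u b) = η₁ (q b) * (η₁ (lab b))⁻¹)
    (g2 : ∀ b ∈ S, Φ₂ (u b) = η₂ (q b) * (η₂ (lab b))⁻¹)
    (e : E) (he : e ∉ S)
    (hR : ∀ f, Arc p q lab S a e f → (η₁ (lab f))⁻¹ * η₁ (q f) = (η₂ (lab f))⁻¹ * η₂ (q f))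
    (w : F) (hw : w ∈ Subgroup.closure {x : F | ∃ b ∈ S, a b (p e) + a b (lab e) ≠ 0 ∧ x = u b}) :
    (η₁ (lab e))⁻¹ * Φ₁ w * η₁ (lab e) = (η₂ (lab e))⁻¹ * Φ₂ w * η₂ (lab e) := by
  have hmpS : ∀ e ∈ S, mp p q S e = p e := fun e he => by unfold mp; exact if_pos he
  have hmpN : ∀ e, e ∉ S → mp p q S e = q e := fun e he => by unfold mp; exact if_neg he
  have hw2 : w ∈ ((MulAut.conj (η₁ (lab e))⁻¹).toMonoidHom.comp Φ₁).eqLocus
      ((MulAut.conj (η₂ (lab e))⁻¹).toMonoidHom.comp Φ₂) := by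
    refine (Subgroup.closure_le _).2 ?_ hw
    rintro _ ⟨b, hb, hP, rfl⟩
    show (η₁ (lab e))⁻¹ * Φ₁ (u b) * (η₁ (lab e))⁻¹⁻¹ = (η₂ (lab e))⁻¹ * Φ₂ (u b) * (η₂ (lab e))⁻¹⁻¹
    rw [g1 b hb, g2 b hb, inv_inv, inv_inv]
    have e1 : (η₁ (lab e))⁻¹ * η₁ (lab b) = (η₂ (lab e))⁻¹ * η₂ (lab b) := by
      refine diag hT ha hexp η₁ η₂ _ _ ?_
      intro f hf
      by_cases hfS : f ∈ S
      · rw [hmpS f hfS, h1 f hfS, h2 f hfS]
      · exfalso
        apply hf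
        rw [same_of ha hS f hfS e b hb hP, z2s]
    have e2 : (η₁ (lab b))⁻¹ * η₁ (q b) = (η₂ (lab b))⁻¹ * η₂ (q b) := by
      refine diag hT ha hexp η₁ η₂ _ _ ?_
      intro f hf
      by_cases hfS : f ∈ S
      · rw [hmpS f hfS, h1 f hfS, h2 f hfS]
      · rw [hmpN f hfS]
        refine hR f ⟨he, hfS, b, hb, hP, ?_⟩
        rwa [add_comm]
    calc (η₁ (lab e))⁻¹ * (η₁ (q b) * (η₁ (lab b))⁻¹) * η₁ (lab e)
        = ((η₁ (lab e))⁻¹ * η₁ (lab b)) * ((η₁ (lab b))⁻¹ * η₁ (q b)) *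
            ((η₁ (lab e))⁻¹ * η₁ (lab b))⁻¹ := by group
      _ = ((η₂ (lab e))⁻¹ * η₂ (lab b)) * ((η₂ (lab b))⁻¹ * η₂ (q b)) *
            ((η₂ (lab e))⁻¹ * η₂ (lab b))⁻¹ := by rw [e1, e2]
      _ = (η₂ (lab e))⁻¹ * (η₂ (q b) * (η₂ (lab b))⁻¹) * η₂ (lab e) := by group
  have h3 : (η₁ (lab e))⁻¹ * Φ₁ w * (η₁ (lab e))⁻¹⁻¹ = (η₂ (lab e))⁻¹ * Φ₂ w * (η₂ (lab e))⁻¹⁻¹ := hw2
  rwa [inv_inv, inv_inv] at h3

end

end Pool.Agent.N819.UD
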