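import Pool.Agent.N819.UD.Sol

/-!
# The solution of the equations and the map to the group
-/

set_option autoImplicit false

namespace Pool.Agent.N819.UD

open Pool.Agent.TH625.LOG Pool.Agent.N819.LT Finset

theorem sol (hD : S_DUAL) (hC : S_CYC) (hX : S_EXCH) (hT : S_TREE) (hF : S_FIX) (hPer : S_PER)
    {V E : Type} [Fintype V] [Fintype E] [DecidableEq V] [DecidableEq E] (L : LOG V E)
    (hcard : Fintype.card V = Fintype.card E + 1)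
    (hu : ∃! S : Set E, Mix L.ini L.ter L.lab S ∧ Spans L.ini L.lab S) (r : V) :
    ∃ (S : Set E) (η : V → FreeGroup S) (φ : FreeGroup S →* FreeGroup S)
      (Ψ : FreeGroup S →* FreeGroup V), (Mix L.ini L.ter L.lab S ∧ Spans L.ini L.lab S) ∧
      η r = 1 ∧ (∀ b : S, (η (L.lab b))⁻¹ * η (L.ini b) = FreeGroup.of b) ∧
      (∀ e, φ ((η (L.lab e))⁻¹ * η (L.ini e)) = η (L.ter e) * (η (L.lab e))⁻¹) ∧
      (∀ v, L.pr (Ψ (η v)) = (L.gen r)⁻¹ * L.gen v) ∧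
      (∀ w, L.pr (Ψ (φ w)) = (L.gen r)⁻¹ * L.pr (Ψ w) * L.gen r) := by
  classical
  obtain ⟨S, ⟨hM, hS⟩, huniq⟩ := hu
  obtain ⟨a, ha, hexp⟩ := hD V E (mp L.ini L.ter S) L.lab hcard hM
  have hM' : Conn (mp L.ini L.ter S) L.lab := hM
  have hmpS : ∀ e ∈ S, mp L.ini L.ter S e = L.ini e := fun e he => by unfold mp; exact if_pos he
  have hmpN : ∀ e, e ∉ S → mp L.ini L.ter S e = L.ter e := fun e he => by
    unfold mp; exact if_neg he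
  let u : E → FreeGroup S := fun e => if h : e ∈ S then FreeGroup.of ⟨e, h⟩ else 1
  have hu1 : ∀ b : S, u b = FreeGroup.of b := fun b => dif_pos b.2
  have hint : ∀ κ : E → FreeGroup S, ∃ η : V → FreeGroup S, η r = 1 ∧
      ∀ e, (η (L.lab e))⁻¹ * η (mp L.ini L.ter S e) = if e ∈ S then u e else κ e :=
    fun κ => exists_integral (mp L.ini L.ter S) L.lab hM' hcard r _
  choose η hη1 hη using hint
  have hηS : ∀ κ, ∀ b ∈ S, (η κ (L.lab b))⁻¹ * η κ (L.ini b) = u b := by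
    intro κ b hb
    have h := hη κ b
    rwa [hmpS b hb, if_pos hb] at h
  have hηN : ∀ κ, ∀ f, f ∉ S → (η κ (L.lab f))⁻¹ * η κ (L.ter f) = κ f := by
    intro κ b hb
    have h := hη κ b
    rwa [hmpN b hb, if_neg hb] at h
  let Φ : (E → FreeGroup S) → (FreeGroup S →* FreeGroup S) := fun κ =>
    FreeGroup.lift (fun b : S => η κ (L.ter b) * (η κ (L.lab b))⁻¹)
  have hΦ : ∀ κ, ∀ b ∈ S, Φ κ (u b) = η κ (L.ter b) * (η κ (L.lab b))⁻¹ := by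
    intro κ b hb
    rw [hu1 ⟨b, hb⟩]
    exact FreeGroup.lift_apply_of
  have hw : ∀ e κ, (η κ (L.lab e))⁻¹ * η κ (L.ini e) ∈ Subgroup.closure
      {x : FreeGroup S | ∃ b ∈ S, a b (L.ini e) + a b (L.lab e) ≠ 0 ∧ x = u b} := by
    intro e κ
    refine (Subgroup.closure_mono ?_) (hT V E (mp L.ini L.ter S) L.lab a ha hexp (FreeGroup S)
      (η κ) (L.lab e) (L.ini e))
    rintro _ ⟨f, hf, rfl⟩
    by_cases hfS : f ∈ S
    · refine ⟨f, hfS, ?_, ?_⟩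
      · rwa [add_comm]
      · rw [hmpS f hfS, hηS κ f hfS]
    · exfalso
      apply hf
      rw [const_of ha hS f hfS e, z2s]
  have hsame : ∀ e κ κ', (η κ (L.lab e))⁻¹ * η κ (L.ini e) =
      (η κ' (L.lab e))⁻¹ * η κ' (L.ini e) := by
    intro e κ κ'
    refine diag hT ha hexp _ _ _ _ ?_
    intro f hf
    by_cases hfS : f ∈ S
    · rw [hmpS f hfS, hηS κ f hfS, hηS κ' f hfS]
    · exfalso
      apply hf
      rw [const_of ha hS f hfS e, z2s]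
  have hac : ∀ A : Set E, A.Nonempty → ∃ e ∈ A, ∀ f ∈ A, ¬ Arc L.ini L.ter L.lab S a e f := by
    intro A hA
    by_contra hcon
    push Not at hcon
    obtain ⟨B, hB, -, hB2⟩ := hPer E (Arc L.ini L.ter L.lab S a) A hA hcon
    exact no_pred L.ini L.ter L.lab S a hC hX hcard hS huniq ha hexp B hB hB2
  let T : (E → FreeGroup S) → E → FreeGroup S := fun κ e => if e ∈ S then 1 else
    (η κ (L.lab e))⁻¹ * Φ κ ((η κ (L.lab e))⁻¹ * η κ (L.ini e)) * η κ (L.lab e)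
  obtain ⟨κ, hκ⟩ := hF E (FreeGroup S) (Arc L.ini L.ter L.lab S a) T hac (by
    intro e κ κ' h
    by_cases he : e ∈ S
    · show (if e ∈ S then (1 : FreeGroup S) else _) = if e ∈ S then (1 : FreeGroup S) else _
      rw [if_pos he, if_pos he]
    · show (if e ∈ S then (1 : FreeGroup S) else _) = if e ∈ S then (1 : FreeGroup S) else _
      rw [if_neg he, if_neg he, hsame e κ' κ]
      exact key hT ha hexp hS u (MonoidHom.id (FreeGroup S)) (Φ κ) (Φ κ') (η κ) (η κ') (hηS κ)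
        (hηS κ') (hΦ κ) (hΦ κ') e he
        (fun f hf => by rw [hηN κ f hf.2.1, hηN κ' f hf.2.1, h f hf]) _ (hw e κ))
  have hκe : ∀ e, e ∉ S → (η κ (L.lab e))⁻¹ * Φ κ ((η κ (L.lab e))⁻¹ * η κ (L.ini e)) *
      η κ (L.lab e) = (η κ (L.lab e))⁻¹ * η κ (L.ter e) := by
    intro e he
    have h := congrFun hκ e
    have h2 : T κ e = (η κ (L.lab e))⁻¹ * Φ κ ((η κ (L.lab e))⁻¹ * η κ (L.ini e)) *
      η κ (L.lab e) := if_neg he
    rw [← h2, h, hηN κ e he]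
  have hE : ∀ e, Φ κ ((η κ (L.lab e))⁻¹ * η κ (L.ini e)) =
      η κ (L.ter e) * (η κ (L.lab e))⁻¹ := by
    intro e
    by_cases he : e ∈ S
    · rw [hηS κ e he, hΦ κ e he]
    · have h := hκe e he
      rw [mul_assoc] at h
      exact eq_mul_inv_of_mul_eq (mul_left_cancel h)
  let Ψ : FreeGroup S →* FreeGroup V := FreeGroup.lift
    (fun b : S => (FreeGroup.of (L.lab b))⁻¹ * FreeGroup.of (L.ini b))
  let Ψ' : FreeGroup S →* L.G := L.pr.comp Ψ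
  let ζ : V → L.G := fun v => (L.gen r)⁻¹ * L.gen v
  have hΨ : ∀ b ∈ S, Ψ' (u b) = (L.gen (L.lab b))⁻¹ * L.gen (L.ini b) := by
    intro b hb
    rw [hu1 ⟨b, hb⟩]
    show L.pr (Ψ (FreeGroup.of ⟨b, hb⟩)) = _
    have h : Ψ (FreeGroup.of ⟨b, hb⟩) = (FreeGroup.of (L.lab b))⁻¹ * FreeGroup.of (L.ini b) :=
      FreeGroup.lift_apply_of
    rw [h, map_mul, map_inv]
    rfl
  have h1 : ∀ b ∈ S, (Ψ' (η κ (L.lab b)))⁻¹ * Ψ' (η κ (L.ini b)) = Ψ' (u b) := by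
    intro b hb
    rw [← map_inv, ← map_mul, hηS κ b hb]
  have h2 : ∀ b ∈ S, (ζ (L.lab b))⁻¹ * ζ (L.ini b) = Ψ' (u b) := by
    intro b hb
    rw [hΨ b hb]
    show ((L.gen r)⁻¹ * L.gen (L.lab b))⁻¹ * ((L.gen r)⁻¹ * L.gen (L.ini b)) = _
    group
  have hrel : ∀ e, (L.gen (L.lab e))⁻¹ * L.gen (L.ini e) = L.gen (L.ter e) * (L.gen (L.lab e))⁻¹ := by
    intro e
    rw [inv_mul_eq_iff_eq_mul, ← mul_assoc, ← Pool.Agent.N819.UD.gen_rel L e, mul_inv_cancel_right]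
  let Φ₂ : FreeGroup S →* L.G := (MulAut.conj (L.gen r)⁻¹).toMonoidHom.comp Ψ'
  have hΦ₂ : ∀ w, Φ₂ w = (L.gen r)⁻¹ * Ψ' w * L.gen r := by
    intro w
    show (L.gen r)⁻¹ * Ψ' w * (L.gen r)⁻¹⁻¹ = _
    rw [inv_inv]
  have g1 : ∀ b ∈ S, (Ψ'.comp (Φ κ)) (u b) = Ψ' (η κ (L.ter b)) * (Ψ' (η κ (L.lab b)))⁻¹ := by
    intro b hb
    show Ψ' (Φ κ (u b)) = _
    rw [hΦ κ b hb, map_mul, map_inv]
  have g2 : ∀ b ∈ S, Φ₂ (u b) = ζ (L.ter b) * (ζ (L.lab b))⁻¹ := by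
    intro b hb
    rw [hΦ₂, hΨ b hb, hrel]
    show _ = ((L.gen r)⁻¹ * L.gen (L.ter b)) * ((L.gen r)⁻¹ * L.gen (L.lab b))⁻¹
    group
  have hZ : ∀ e, e ∉ S → (Ψ' (η κ (L.lab e)))⁻¹ * Ψ' (η κ (L.ter e)) =
      (ζ (L.lab e))⁻¹ * ζ (L.ter e) := by
    by_contra hcon
    push Not at hcon
    obtain ⟨e0, he0, hne0⟩ := hcon
    obtain ⟨e, ⟨he, hne⟩, hmax⟩ := hac {e | e ∉ S ∧ (Ψ' (η κ (L.lab e)))⁻¹ * Ψ' (η κ (L.ter e)) ≠
      (ζ (L.lab e))⁻¹ * ζ (L.ter e)} ⟨e0, he0, hne0⟩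
    apply hne
    have hk := key hT ha hexp hS u Ψ' (Ψ'.comp (Φ κ)) Φ₂ (fun v => Ψ' (η κ v)) ζ h1 h2 g1 g2 e he
      (fun f hf => by
        by_contra hc
        exact hmax f ⟨hf.2.1, hc⟩ hf) _ (hw e κ)
    have hk1 : (Ψ' (η κ (L.lab e)))⁻¹ * (Ψ'.comp (Φ κ)) ((η κ (L.lab e))⁻¹ * η κ (L.ini e)) *
        Ψ' (η κ (L.lab e)) = (Ψ' (η κ (L.lab e)))⁻¹ * Ψ' (η κ (L.ter e)) := by
      show (Ψ' (η κ (L.lab e)))⁻¹ * Ψ' (Φ κ ((η κ (L.lab e))⁻¹ * η κ (L.ini e))) *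
        Ψ' (η κ (L.lab e)) = _
      rw [← map_inv, ← map_mul, ← map_mul, hκe e he, map_mul]
    have hk2 : Ψ' ((η κ (L.lab e))⁻¹ * η κ (L.ini e)) = (L.gen (L.lab e))⁻¹ * L.gen (L.ini e) := by
      rw [map_mul, map_inv]
      have h3 := diag hT ha hexp (fun v => Ψ' (η κ v)) ζ (L.lab e) (L.ini e) (by
        intro f hf
        by_cases hfS : f ∈ S
        · rw [hmpS f hfS, h1 f hfS, h2 f hfS]
        · exfalso
          apply hf
          rw [const_of ha hS f hfS e, z2s])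
      rw [h3]
      show ((L.gen r)⁻¹ * L.gen (L.lab e))⁻¹ * ((L.gen r)⁻¹ * L.gen (L.ini e)) = _
      group
    rw [← hk1, hk, hΦ₂, hk2, hrel]
    show ((L.gen r)⁻¹ * L.gen (L.lab e))⁻¹ * ((L.gen r)⁻¹ * (L.gen (L.ter e) *
      (L.gen (L.lab e))⁻¹) * L.gen r) * ((L.gen r)⁻¹ * L.gen (L.lab e)) =
      ((L.gen r)⁻¹ * L.gen (L.lab e))⁻¹ * ((L.gen r)⁻¹ * L.gen (L.ter e))
    group
  have hy2 : ∀ v, Ψ' (η κ v) = ζ v := by
    intro v
    have h3 := diag hT ha hexp (fun v => Ψ' (η κ v)) ζ r v (by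
      intro f _
      by_cases hfS : f ∈ S
      · rw [hmpS f hfS, h1 f hfS, h2 f hfS]
      · rw [hmpN f hfS]
        exact hZ f hfS)
    have h4 : ζ r = 1 := inv_mul_cancel _
    simp only [hη1 κ, map_one, inv_one, one_mul, h4] at h3
    exact h3
  have hy3 : ∀ w, Ψ' (Φ κ w) = (L.gen r)⁻¹ * Ψ' w * L.gen r := by
    intro w
    have h3 : Ψ'.comp (Φ κ) = Φ₂ := by
      apply FreeGroup.ext_hom
      intro b
      rw [← hu1 b, g1 b b.2, g2 b b.2, hy2, hy2]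
    rw [← hΦ₂, ← h3]
    rfl
  exact ⟨S, η κ, Φ κ, Ψ, ⟨hM, hS⟩, hη1 κ, fun b => by rw [hηS κ b b.2, hu1 b], hE, hy2, hy3⟩

end Pool.Agent.N819.UD
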