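import Pool.Agent.N819.UD.Sol

/-!
# The solution of the equations for subcomplexes
-/

set_option autoImplicit false

namespace Pool.Agent.N819.UD

open Pool.Agent.TH625.LOG Pool.Agent.N819.LT Finset

/-- the key step, general form -/
theorem key' (hT : S_TREE) {V E : Type} [Fintype V] [Fintype E] [DecidableEq V] [DecidableEq E]
    {p q lab : E → V} {S : Set E} {a : E → V → ZMod 2}
    (ha : ∀ f e, a f (mp p q S e) + a f (lab e) = if e = f then 1 else 0)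
    (hexp : ∀ (v : V → ZMod 2) (x y : V),
      v x + v y = ∑ f, (v (mp p q S f) + v (lab f)) * (a f x + a f y)) (hS : Spans p lab S)
    {F H : Type} [Group F] [Group H] (R : Set E) (u : E → F) (α Φ₁ Φ₂ : F →* H) (η₁ η₂ : V → H)
    (θ : E → H)
    (h1 : ∀ b ∈ S, (η₁ (lab b))⁻¹ * η₁ (p b) = α (u b))
    (h2 : ∀ b ∈ S, (η₂ (lab b))⁻¹ * η₂ (p b) = α (u b))
    (g1 : ∀ b ∈ S, b ∈ R → Φ₁ (u b) = η₁ (q b) * (η₁ (lab b))⁻¹)
    (g2 : ∀ b ∈ S, b ∈ R → Φ₂ (u b) = η₂ (q b) * (η₂ (lab b))⁻¹)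
    (k1 : ∀ b ∈ S, b ∉ R → Φ₁ (u b) = η₁ (lab b) * θ b * (η₁ (lab b))⁻¹)
    (k2 : ∀ b ∈ S, b ∉ R → Φ₂ (u b) = η₂ (lab b) * θ b * (η₂ (lab b))⁻¹)
    (e : E) (he : e ∉ S)
    (hR : ∀ f, Arc p q lab S a e f → (η₁ (lab f))⁻¹ * η₁ (q f) = (η₂ (lab f))⁻¹ * η₂ (q f))
    (w : F) (hw : w ∈ Subgroup.closure {x : F | ∃ b ∈ S, a b (p e) + a b (lab e) ≠ 0 ∧ x = u b}) :
    (η₁ (lab e))⁻¹ * Φ₁ w * η₁ (lab e) = (η₂ (lab e))⁻¹ * Φ₂ w * η₂ (lab e) := by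
  have hmpS : ∀ e ∈ S, mp p q S e = p e := fun e he => by unfold mp; exact if_pos he
  have hmpN : ∀ e, e ∉ S → mp p q S e = q e := fun e he => by unfold mp; exact if_neg he
  have hw2 : w ∈ ((MulAut.conj (η₁ (lab e))⁻¹).toMonoidHom.comp Φ₁).eqLocus
      ((MulAut.conj (η₂ (lab e))⁻¹).toMonoidHom.comp Φ₂) := by
    refine (Subgroup.closure_le _).2 ?_ hw
    rintro _ ⟨b, hb, hP, rfl⟩
    show (η₁ (lab e))⁻¹ * Φ₁ (u b) * (η₁ (lab e))⁻¹⁻¹ = (η₂ (lab e))⁻¹ * Φ₂ (u b) * (η₂ (lab e))⁻¹⁻¹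
    rw [inv_inv, inv_inv]
    have e1 : (η₁ (lab e))⁻¹ * η₁ (lab b) = (η₂ (lab e))⁻¹ * η₂ (lab b) := by
      refine diag hT ha hexp η₁ η₂ _ _ ?_
      intro f hf
      by_cases hfS : f ∈ S
      · rw [hmpS f hfS, h1 f hfS, h2 f hfS]
      · exfalso
        apply hf
        rw [same_of ha hS f hfS e b hb hP, z2s]
    by_cases hbR : b ∈ R
    · rw [g1 b hb hbR, g2 b hb hbR]
      have e2 : (η₁ (lab b))⁻¹ * η₁ (q b) = (η₂ (lab b))⁻¹ * η₂ (q b) := by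
        refine diag hT ha hexp η₁ η₂ _ _ ?_
        intro f hf
        by_cases hfS : f ∈ S
        · rw [hmpS f hfS, h1 f hfS, h2 f hfS]
        · rw [hmpN f hfS]
          refine hR f ⟨he, hfS, b, hb, hP, ?_⟩
          rwa [add_comm]
      calc (η₁ (lab e))⁻¹ * (η₁ (q b) * (η₁ (lab b))⁻¹) * η₁ (lab e)
          = ((η₁ (lab e))⁻¹ * η₁ (lab b)) * ((η₁ (lab b))⁻¹ * η₁ (q b)) *
              ((η₁ (lab e))⁻¹ * η₁ (lab b))⁻¹ := by group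
        _ = ((η₂ (lab e))⁻¹ * η₂ (lab b)) * ((η₂ (lab b))⁻¹ * η₂ (q b)) *
              ((η₂ (lab e))⁻¹ * η₂ (lab b))⁻¹ := by rw [e1, e2]
        _ = (η₂ (lab e))⁻¹ * (η₂ (q b) * (η₂ (lab b))⁻¹) * η₂ (lab e) := by group
    · rw [k1 b hb hbR, k2 b hb hbR]
      calc (η₁ (lab e))⁻¹ * (η₁ (lab b) * θ b * (η₁ (lab b))⁻¹) * η₁ (lab e)
          = ((η₁ (lab e))⁻¹ * η₁ (lab b)) * θ b * ((η₁ (lab e))⁻¹ * η₁ (lab b))⁻¹ := by group
        _ = ((η₂ (lab e))⁻¹ * η₂ (lab b)) * θ b * ((η₂ (lab e))⁻¹ * η₂ (lab b))⁻¹ := by rw [e1]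
        _ = (η₂ (lab e))⁻¹ * (η₂ (lab b) * θ b * (η₂ (lab b))⁻¹) * η₂ (lab e) := by group
  have h3 : (η₁ (lab e))⁻¹ * Φ₁ w * (η₁ (lab e))⁻¹⁻¹ = (η₂ (lab e))⁻¹ * Φ₂ w * (η₂ (lab e))⁻¹⁻¹ := hw2
  rwa [inv_inv, inv_inv] at h3

theorem sol' (hD : S_DUAL) (hC : S_CYC) (hX : S_EXCH) (hT : S_TREE) (hF : S_FIX) (hPer : S_PER)
    {V E : Type} [Fintype V] [Fintype E] [DecidableEq V] [DecidableEq E] (L : LOG V E)
    (hcard : Fintype.card V = Fintype.card E + 1)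
    (hu : ∃! S : Set E, Mix L.ini L.ter L.lab S ∧ Spans L.ini L.lab S) (r : V) (R : Set E) :
    ∃ (η : V → FreeGroup (E ⊕ E × ℕ)) (φ : FreeGroup (E ⊕ E × ℕ) →* FreeGroup (E ⊕ E × ℕ))
      (Ψ : FreeGroup (E ⊕ E × ℕ) →* FreeGroup V),
      (∀ e ∈ R, φ ((η (L.lab e))⁻¹ * η (L.ini e)) = η (L.ter e) * (η (L.lab e))⁻¹) ∧
      (∀ v, (sub L R).pr (Ψ (η v)) = ((sub L R).gen r)⁻¹ * (sub L R).gen v) ∧
      (∀ w, (sub L R).pr (Ψ (φ w)) =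
        ((sub L R).gen r)⁻¹ * (sub L R).pr (Ψ w) * (sub L R).gen r) := by
  classical
  obtain ⟨S, ⟨hM, hS⟩, huniq⟩ := hu
  obtain ⟨a, ha, hexp⟩ := hD V E (mp L.ini L.ter S) L.lab hcard hM
  have hM' : Conn (mp L.ini L.ter S) L.lab := hM
  have hmpS : ∀ e ∈ S, mp L.ini L.ter S e = L.ini e := fun e he => by unfold mp; exact if_pos he
  have hmpN : ∀ e, e ∉ S → mp L.ini L.ter S e = L.ter e := fun e he => by
    unfold mp; exact if_neg he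
  let u : E → FreeGroup (E ⊕ E × ℕ) := fun e => FreeGroup.of (Sum.inl e)
  let y : E → ℕ → FreeGroup (E ⊕ E × ℕ) := fun e j => FreeGroup.of (Sum.inr (e, j))
  have hint : ∀ κ : E → FreeGroup (E ⊕ E × ℕ), ∃ η : V → FreeGroup (E ⊕ E × ℕ), η r = 1 ∧
      ∀ e, (η (L.lab e))⁻¹ * η (mp L.ini L.ter S e) = if e ∈ S then u e else κ e :=
    fun κ => exists_integral (mp L.ini L.ter S) L.lab hM' hcard r _
  choose η hη1 hη using hint
  have hηS : ∀ κ, ∀ b ∈ S, (η κ (L.lab b))⁻¹ * η κ (L.ini b) = u b := by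
    intro κ b hb
    have h := hη κ b
    rwa [hmpS b hb, if_pos hb] at h
  have hηN : ∀ κ, ∀ f, f ∉ S → (η κ (L.lab f))⁻¹ * η κ (L.ter f) = κ f := by
    intro κ b hb
    have h := hη κ b
    rwa [hmpN b hb, if_neg hb] at h
  let Φ : (E → FreeGroup (E ⊕ E × ℕ)) → (FreeGroup (E ⊕ E × ℕ) →* FreeGroup (E ⊕ E × ℕ)) :=
    fun κ => FreeGroup.lift (Sum.elim (fun b : E => if b ∈ S then
      (if b ∈ R then η κ (L.ter b) * (η κ (L.lab b))⁻¹ else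
        η κ (L.lab b) * y b 0 * (η κ (L.lab b))⁻¹) else 1) fun z => y z.1 (z.2 + 1))
  have hΦ : ∀ κ, ∀ b ∈ S, b ∈ R → Φ κ (u b) = η κ (L.ter b) * (η κ (L.lab b))⁻¹ := by
    intro κ b hb hbR
    have h : Φ κ (u b) = (if b ∈ S then
      (if b ∈ R then η κ (L.ter b) * (η κ (L.lab b))⁻¹ else
        η κ (L.lab b) * y b 0 * (η κ (L.lab b))⁻¹) else 1) := FreeGroup.lift_apply_of
    rw [h, if_pos hb, if_pos hbR]
  have hΦ' : ∀ κ, ∀ b ∈ S, b ∉ R → Φ κ (u b) = η κ (L.lab b) * y b 0 * (η κ (L.lab b))⁻¹ := by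
    intro κ b hb hbR
    have h : Φ κ (u b) = (if b ∈ S then
      (if b ∈ R then η κ (L.ter b) * (η κ (L.lab b))⁻¹ else
        η κ (L.lab b) * y b 0 * (η κ (L.lab b))⁻¹) else 1) := FreeGroup.lift_apply_of
    rw [h, if_pos hb, if_neg hbR]
  have hw : ∀ e κ, (η κ (L.lab e))⁻¹ * η κ (L.ini e) ∈ Subgroup.closure
      {x : FreeGroup (E ⊕ E × ℕ) | ∃ b ∈ S, a b (L.ini e) + a b (L.lab e) ≠ 0 ∧ x = u b} := by
    intro e κ
    refine (Subgroup.closure_mono ?_) (hT V E (mp L.ini L.ter S) L.lab a ha hexp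
      (FreeGroup (E ⊕ E × ℕ)) (η κ) (L.lab e) (L.ini e))
    rintro _ ⟨f, hf, rfl⟩
    by_cases hfS : f ∈ S
    · refine ⟨f, hfS, ?_, ?_⟩
      · rwa [add_comm]
      · rw [hmpS f hfS, hηS κ f hfS]
    · exfalso
      apply hf
      rw [const_of ha hS f hfS e, z2s]
  have hsame : ∀ e κ κ', (η κ (L.lab e))⁻¹ * η κ (L.ini e) =
      (η κ' (L.lab e))⁻¹ * η κ' (L.ini e) := by
    intro e κ κ'
    refine diag hT ha hexp _ _ _ _ ?_
    intro f hf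
    by_cases hfS : f ∈ S
    · rw [hmpS f hfS, hηS κ f hfS, hηS κ' f hfS]
    · exfalso
      apply hf
      rw [const_of ha hS f hfS e, z2s]
  have hac : ∀ A : Set E, A.Nonempty → ∃ e ∈ A, ∀ f ∈ A, ¬ Arc L.ini L.ter L.lab S a e f := by
    intro A hA
    by_contra hcon
    push Not at hcon
    obtain ⟨B, hB, -, hB2⟩ := hPer E (Arc L.ini L.ter L.lab S a) A hA hcon
    exact no_pred L.ini L.ter L.lab S a hC hX hcard hS huniq ha hexp B hB hB2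
  let T : (E → FreeGroup (E ⊕ E × ℕ)) → E → FreeGroup (E ⊕ E × ℕ) := fun κ e =>
    if e ∈ S then 1 else if e ∈ R then
      (η κ (L.lab e))⁻¹ * Φ κ ((η κ (L.lab e))⁻¹ * η κ (L.ini e)) * η κ (L.lab e) else y e 0
  have hT1 : ∀ κ e, e ∈ S → T κ e = 1 := fun κ e he => if_pos he
  have hT2 : ∀ κ e, e ∉ S → e ∈ R → T κ e =
      (η κ (L.lab e))⁻¹ * Φ κ ((η κ (L.lab e))⁻¹ * η κ (L.ini e)) * η κ (L.lab e) :=
    fun κ e he heR => (if_neg he).trans (if_pos heR)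
  have hT3 : ∀ κ e, e ∉ S → e ∉ R → T κ e = y e 0 :=
    fun κ e he heR => (if_neg he).trans (if_neg heR)
  obtain ⟨κ, hκ⟩ := hF E (FreeGroup (E ⊕ E × ℕ)) (Arc L.ini L.ter L.lab S a) T hac (by
    intro e κ κ' h
    by_cases he : e ∈ S
    · rw [hT1 κ e he, hT1 κ' e he]
    · by_cases heR : e ∈ R
      · rw [hT2 κ e he heR, hT2 κ' e he heR, hsame e κ' κ]
        exact key' hT ha hexp hS R u (MonoidHom.id (FreeGroup (E ⊕ E × ℕ))) (Φ κ) (Φ κ') (η κ)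
          (η κ') (fun b => y b 0) (hηS κ) (hηS κ') (hΦ κ) (hΦ κ') (hΦ' κ) (hΦ' κ') e he
          (fun f hf => by rw [hηN κ f hf.2.1, hηN κ' f hf.2.1, h f hf]) _ (hw e κ)
      · rw [hT3 κ e he heR, hT3 κ' e he heR])
  have hκe : ∀ e, e ∉ S → e ∈ R →
      (η κ (L.lab e))⁻¹ * Φ κ ((η κ (L.lab e))⁻¹ * η κ (L.ini e)) *
      η κ (L.lab e) = (η κ (L.lab e))⁻¹ * η κ (L.ter e) := by
    intro e he heR
    rw [← hT2 κ e he heR, hκ, hηN κ e he]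
  have hE : ∀ e ∈ R, Φ κ ((η κ (L.lab e))⁻¹ * η κ (L.ini e)) =
      η κ (L.ter e) * (η κ (L.lab e))⁻¹ := by
    intro e heR
    by_cases he : e ∈ S
    · rw [hηS κ e he, hΦ κ e he heR]
    · have h := hκe e he heR
      rw [mul_assoc] at h
      exact eq_mul_inv_of_mul_eq (mul_left_cancel h)
  let t : FreeGroup V := FreeGroup.of r
  let Y : E → FreeGroup V := fun e => if e ∈ S then
    (FreeGroup.of (L.lab e))⁻¹ * ((FreeGroup.of (L.lab e))⁻¹ * FreeGroup.of (L.ini e)) *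
      FreeGroup.of (L.lab e) else (FreeGroup.of (L.lab e))⁻¹ * FreeGroup.of (L.ter e)
  let Ψ : FreeGroup (E ⊕ E × ℕ) →* FreeGroup V := FreeGroup.lift
    (Sum.elim (fun b : E => if b ∈ S then (FreeGroup.of (L.lab b))⁻¹ * FreeGroup.of (L.ini b) else 1)
      fun z => (t ^ z.2)⁻¹ * Y z.1 * t ^ z.2)
  let M := sub L R
  let Ψ' : FreeGroup (E ⊕ E × ℕ) →* M.G := M.pr.comp Ψ
  let ζ : V → M.G := fun v => (M.gen r)⁻¹ * M.gen v
  have hΨ : ∀ b ∈ S, Ψ' (u b) = (M.gen (L.lab b))⁻¹ * M.gen (L.ini b) := by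
    intro b hb
    show M.pr (Ψ (FreeGroup.of (Sum.inl b))) = _
    have h : Ψ (FreeGroup.of (Sum.inl b)) = if b ∈ S then
      (FreeGroup.of (L.lab b))⁻¹ * FreeGroup.of (L.ini b) else 1 := FreeGroup.lift_apply_of
    rw [h, if_pos hb, map_mul, map_inv]
    rfl
  have hΨn : ∀ b, b ∉ S → Ψ' (u b) = 1 := by
    intro b hb
    show M.pr (Ψ (FreeGroup.of (Sum.inl b))) = _
    have h : Ψ (FreeGroup.of (Sum.inl b)) = if b ∈ S then
      (FreeGroup.of (L.lab b))⁻¹ * FreeGroup.of (L.ini b) else 1 := FreeGroup.lift_apply_of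
    rw [h, if_neg hb, map_one]
  have hΨy : ∀ e j, Ψ' (y e j) = (M.gen r ^ j)⁻¹ * M.pr (Y e) * M.gen r ^ j := by
    intro e j
    show M.pr (Ψ (FreeGroup.of (Sum.inr (e, j)))) = _
    have h : Ψ (FreeGroup.of (Sum.inr (e, j))) = (t ^ j)⁻¹ * Y e * t ^ j := FreeGroup.lift_apply_of
    rw [h, map_mul, map_mul, map_inv, map_pow]
    rfl
  have hYS : ∀ e ∈ S, M.pr (Y e) = (M.gen (L.lab e))⁻¹ * ((M.gen (L.lab e))⁻¹ * M.gen (L.ini e)) *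
      M.gen (L.lab e) := by
    intro e he
    have h : Y e = (FreeGroup.of (L.lab e))⁻¹ * ((FreeGroup.of (L.lab e))⁻¹ *
      FreeGroup.of (L.ini e)) * FreeGroup.of (L.lab e) := if_pos he
    rw [h, map_mul, map_mul, map_mul, map_inv]
    rfl
  have hYN : ∀ e, e ∉ S → M.pr (Y e) = (M.gen (L.lab e))⁻¹ * M.gen (L.ter e) := by
    intro e he
    have h : Y e = (FreeGroup.of (L.lab e))⁻¹ * FreeGroup.of (L.ter e) := if_neg he
    rw [h, map_mul, map_inv]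
    rfl
  have hy0 : ∀ e, Ψ' (y e 0) = M.pr (Y e) := by
    intro e
    rw [hΨy]
    simp
  have h1 : ∀ b ∈ S, (Ψ' (η κ (L.lab b)))⁻¹ * Ψ' (η κ (L.ini b)) = Ψ' (u b) := by
    intro b hb
    rw [← map_inv, ← map_mul, hηS κ b hb]
  have h2 : ∀ b ∈ S, (ζ (L.lab b))⁻¹ * ζ (L.ini b) = Ψ' (u b) := by
    intro b hb
    rw [hΨ b hb]
    show ((M.gen r)⁻¹ * M.gen (L.lab b))⁻¹ * ((M.gen r)⁻¹ * M.gen (L.ini b)) = _
    group
  have hrel : ∀ e ∈ R, (M.gen (L.lab e))⁻¹ * M.gen (L.ini e) =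
      M.gen (L.ter e) * (M.gen (L.lab e))⁻¹ := by
    intro e heR
    have h := Pool.Agent.N819.UD.gen_rel M ⟨e, heR⟩
    have h' : M.gen (L.ini e) * M.gen (L.lab e) = M.gen (L.lab e) * M.gen (L.ter e) := h
    rw [inv_mul_eq_iff_eq_mul, ← mul_assoc, ← h', mul_inv_cancel_right]
  let Φ₂ : FreeGroup (E ⊕ E × ℕ) →* M.G := (MulAut.conj (M.gen r)⁻¹).toMonoidHom.comp Ψ'
  have hΦ₂ : ∀ w, Φ₂ w = (M.gen r)⁻¹ * Ψ' w * M.gen r := by
    intro w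
    show (M.gen r)⁻¹ * Ψ' w * (M.gen r)⁻¹⁻¹ = _
    rw [inv_inv]
  have g1 : ∀ b ∈ S, b ∈ R → (Ψ'.comp (Φ κ)) (u b) =
      Ψ' (η κ (L.ter b)) * (Ψ' (η κ (L.lab b)))⁻¹ := by
    intro b hb hbR
    show Ψ' (Φ κ (u b)) = _
    rw [hΦ κ b hb hbR, map_mul, map_inv]
  have g2 : ∀ b ∈ S, b ∈ R → Φ₂ (u b) = ζ (L.ter b) * (ζ (L.lab b))⁻¹ := by
    intro b hb hbR
    rw [hΦ₂, hΨ b hb, hrel b hbR]
    show _ = ((M.gen r)⁻¹ * M.gen (L.ter b)) * ((M.gen r)⁻¹ * M.gen (L.lab b))⁻¹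
    group
  have k1 : ∀ b ∈ S, b ∉ R → (Ψ'.comp (Φ κ)) (u b) =
      Ψ' (η κ (L.lab b)) * M.pr (Y b) * (Ψ' (η κ (L.lab b)))⁻¹ := by
    intro b hb hbR
    show Ψ' (Φ κ (u b)) = _
    rw [hΦ' κ b hb hbR, map_mul, map_mul, map_inv, hy0]
  have k2 : ∀ b ∈ S, b ∉ R → Φ₂ (u b) = ζ (L.lab b) * M.pr (Y b) * (ζ (L.lab b))⁻¹ := by
    intro b hb _
    rw [hΦ₂, hΨ b hb, hYS b hb]
    show _ = ((M.gen r)⁻¹ * M.gen (L.lab b)) * ((M.gen (L.lab b))⁻¹ * ((M.gen (L.lab b))⁻¹ *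
      M.gen (L.ini b)) * M.gen (L.lab b)) * ((M.gen r)⁻¹ * M.gen (L.lab b))⁻¹
    group
  have hZ : ∀ e, e ∉ S → (Ψ' (η κ (L.lab e)))⁻¹ * Ψ' (η κ (L.ter e)) =
      (ζ (L.lab e))⁻¹ * ζ (L.ter e) := by
    by_contra hcon
    push Not at hcon
    obtain ⟨e0, he0, hne0⟩ := hcon
    obtain ⟨e, ⟨he, hne⟩, hmax⟩ := hac {e | e ∉ S ∧ (Ψ' (η κ (L.lab e)))⁻¹ * Ψ' (η κ (L.ter e)) ≠
      (ζ (L.lab e))⁻¹ * ζ (L.ter e)} ⟨e0, he0, hne0⟩
    apply hne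
    by_cases heR : e ∈ R
    · have hk := key' hT ha hexp hS R u Ψ' (Ψ'.comp (Φ κ)) Φ₂ (fun v => Ψ' (η κ v)) ζ
        (fun b => M.pr (Y b)) h1 h2 g1 g2 k1 k2 e he
        (fun f hf => by
          by_contra hc
          exact hmax f ⟨hf.2.1, hc⟩ hf) _ (hw e κ)
      have hk1 : (Ψ' (η κ (L.lab e)))⁻¹ * (Ψ'.comp (Φ κ)) ((η κ (L.lab e))⁻¹ * η κ (L.ini e)) *
          Ψ' (η κ (L.lab e)) = (Ψ' (η κ (L.lab e)))⁻¹ * Ψ' (η κ (L.ter e)) := by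
        show (Ψ' (η κ (L.lab e)))⁻¹ * Ψ' (Φ κ ((η κ (L.lab e))⁻¹ * η κ (L.ini e))) *
          Ψ' (η κ (L.lab e)) = _
        rw [← map_inv, ← map_mul, ← map_mul, hκe e he heR, map_mul]
      have hk2 : Ψ' ((η κ (L.lab e))⁻¹ * η κ (L.ini e)) =
          (M.gen (L.lab e))⁻¹ * M.gen (L.ini e) := by
        rw [map_mul, map_inv]
        have h3 := diag hT ha hexp (fun v => Ψ' (η κ v)) ζ (L.lab e) (L.ini e) (by
          intro f hf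
          by_cases hfS : f ∈ S
          · rw [hmpS f hfS, h1 f hfS, h2 f hfS]
          · exfalso
            apply hf
            rw [const_of ha hS f hfS e, z2s])
        rw [h3]
        show ((M.gen r)⁻¹ * M.gen (L.lab e))⁻¹ * ((M.gen r)⁻¹ * M.gen (L.ini e)) = _
        group
      rw [← hk1, hk, hΦ₂, hk2, hrel e heR]
      show ((M.gen r)⁻¹ * M.gen (L.lab e))⁻¹ * ((M.gen r)⁻¹ * (M.gen (L.ter e) *
        (M.gen (L.lab e))⁻¹) * M.gen r) * ((M.gen r)⁻¹ * M.gen (L.lab e)) =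
        ((M.gen r)⁻¹ * M.gen (L.lab e))⁻¹ * ((M.gen r)⁻¹ * M.gen (L.ter e))
      group
    · rw [← map_inv, ← map_mul, hηN κ e he]
      have h5 : κ e = y e 0 := by
        rw [← hT3 κ e he heR, hκ]
      rw [h5, hy0, hYN e he]
      show _ = ((M.gen r)⁻¹ * M.gen (L.lab e))⁻¹ * ((M.gen r)⁻¹ * M.gen (L.ter e))
      group
  have hy2 : ∀ v, Ψ' (η κ v) = ζ v := by
    intro v
    have h3 := diag hT ha hexp (fun v => Ψ' (η κ v)) ζ r v (by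
      intro f _
      by_cases hfS : f ∈ S
      · rw [hmpS f hfS, h1 f hfS, h2 f hfS]
      · rw [hmpN f hfS]
        exact hZ f hfS)
    have h4 : ζ r = 1 := inv_mul_cancel _
    simp only [hη1 κ, map_one, inv_one, one_mul, h4] at h3
    exact h3
  have hy3 : ∀ w, Ψ' (Φ κ w) = (M.gen r)⁻¹ * Ψ' w * M.gen r := by
    intro w
    have h3 : Ψ'.comp (Φ κ) = Φ₂ := by
      apply FreeGroup.ext_hom
      rintro (b | ⟨e, j⟩)
      · by_cases hb : b ∈ S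
        · by_cases hbR : b ∈ R
          · exact (g1 b hb hbR).trans (by rw [g2 b hb hbR, hy2, hy2])
          · exact (k1 b hb hbR).trans (by rw [k2 b hb hbR, hy2])
        · have h6 : Φ κ (u b) = (if b ∈ S then
            (if b ∈ R then η κ (L.ter b) * (η κ (L.lab b))⁻¹ else
              η κ (L.lab b) * y b 0 * (η κ (L.lab b))⁻¹) else 1) := FreeGroup.lift_apply_of
          rw [if_neg hb] at h6
          show Ψ' (Φ κ (u b)) = Φ₂ (u b)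
          rw [h6, map_one, hΦ₂, hΨn b hb]
          group
      · have h6 : Φ κ (y e j) = y e (j + 1) := FreeGroup.lift_apply_of
        show Ψ' (Φ κ (y e j)) = Φ₂ (y e j)
        rw [h6, hΦ₂, hΨy, hΨy, pow_succ]
        group
    rw [← hΦ₂, ← h3]
    rfl
  exact ⟨η κ, Φ κ, Ψ, hE, hy2, hy3⟩

end Pool.Agent.N819.UD
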