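import Pool.Agent.N819.UD.Main
import Pool.Agent.N819.LT.MT

/-!
# Labelled oriented trees with exactly one spanning decomposition: statements for the group
-/

set_option autoImplicit false

namespace Pool.Agent.N819.UD

open Pool.Agent.TH625.LOG Pool.Agent.N819.LT

/-- TREE: the difference of a function with values in a group along a tree -/
def S_TREE : Prop :=
  ∀ (V E : Type) [Fintype V] [Fintype E] [DecidableEq V] [DecidableEq E] (p lab : E → V)
    (a : E → V → ZMod 2),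
    (∀ f e, a f (p e) + a f (lab e) = if e = f then 1 else 0) →
    (∀ (v : V → ZMod 2) (x y : V), v x + v y = ∑ f, (v (p f) + v (lab f)) * (a f x + a f y)) →
    ∀ (H : Type) [Group H] (η : V → H) (x y : V),
      (η x)⁻¹ * η y ∈ Subgroup.closure
        {h : H | ∃ f, a f x + a f y ≠ 0 ∧ h = (η (lab f))⁻¹ * η (p f)}

/-- FIX: fixed points for acyclic dependency -/
def S_FIX : Prop :=
  ∀ (E X : Type) [Fintype E] [DecidableEq E] [Nonempty X] (R : E → E → Prop) (T : (E → X) → E → X),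
    (∀ A : Set E, A.Nonempty → ∃ e ∈ A, ∀ f ∈ A, ¬ R e f) →
    (∀ e (κ κ' : E → X), (∀ f, R e f → κ f = κ' f) → T κ e = T κ' e) →
    ∃ κ : E → X, T κ = κ

/-- PER: successors give predecessors -/
def S_PER : Prop :=
  ∀ (E : Type) [Fintype E] [DecidableEq E] (R : E → E → Prop) (A : Set E), A.Nonempty →
    (∀ e ∈ A, ∃ f ∈ A, R e f) → ∃ B : Set E, B.Nonempty ∧ B ⊆ A ∧ ∀ e ∈ B, ∃ f ∈ B, R f e

/-- KLI: the kernel is locally indicable if cocycles kill finitely many cells -/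
def S_KLI : Prop :=
  ∀ (V E A : Type) [Group A] (L : LOG V E) (ρ : L.G →* A),
    (∀ S : Finset (E × A), ∃ C : L.Coc ρ, ∀ d ∈ S, C.c d.2 (L.rel d.1) = 1) →
    ∀ H : Subgroup L.G, H.FG → H ≤ ρ.ker → H ≠ ⊥ → ∃ ψ : H →* Multiplicative ℤ, ∃ x, ψ x ≠ 1

/-- COC: cocycles from an endomorphism of a free group -/
def S_COC : Prop :=
  ∀ (V E F : Type) [Group F] (L : LOG V E) (r : V) (η : V → F) (φ : F →* F)
    (Ψ : F →* FreeGroup V),
    (∀ e, φ ((η (L.lab e))⁻¹ * η (L.ini e)) = η (L.ter e) * (η (L.lab e))⁻¹) →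
    (∀ v, L.pr (Ψ (η v)) = (L.gen r)⁻¹ * L.gen v) →
    (∀ w, L.pr (Ψ (φ w)) = (L.gen r)⁻¹ * L.pr (Ψ w) * L.gen r) →
    ∀ S : Finset (E × Multiplicative ℤ), ∃ C : L.Coc (chi L), ∀ d ∈ S, C.c d.2 (L.rel d.1) = 1

end Pool.Agent.N819.UD
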