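import Pool.Agent.N819.UD.Sol2
import Pool.Agent.N819.UD.LI

/-!
# The group of a labelled oriented tree with exactly one spanning decomposition is a mapping torus
-/

set_option autoImplicit false

namespace Pool.Agent.N819.UD

open Pool.Agent.TH625.LOG Pool.Agent.N819.LT Finset

/-- The group of `L` is the mapping torus of an endomorphism of the free group with basis `S`, the
generator of the vertex `r` is the stable letter and `b ∈ S` corresponds to `x_lab⁻¹ x_ini`. -/
def IsTor {V E : Type} (L : LOG V E) (r : V) (S : Set E) : Prop :=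
  ∃ (φ : FreeGroup S →* FreeGroup S) (α : L.G ≃* MT φ), α (L.gen r) = MT.t φ ∧
    ∀ b : S, α ((L.gen (L.lab b))⁻¹ * L.gen (L.ini b)) = MT.inc φ (FreeGroup.of b)

theorem isTor_of {V E : Type} (L : LOG V E) (r : V) (S : Set E) (η : V → FreeGroup S)
    (φ : FreeGroup S →* FreeGroup S) (Ψ : FreeGroup S →* FreeGroup V) (h0 : η r = 1)
    (hb : ∀ b : S, (η (L.lab b))⁻¹ * η (L.ini b) = FreeGroup.of b)
    (hφ : ∀ e, φ ((η (L.lab e))⁻¹ * η (L.ini e)) = η (L.ter e) * (η (L.lab e))⁻¹)
    (h2 : ∀ v, L.pr (Ψ (η v)) = (L.gen r)⁻¹ * L.gen v)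
    (h3 : ∀ w, L.pr (Ψ (φ w)) = (L.gen r)⁻¹ * L.pr (Ψ w) * L.gen r) : IsTor L r S := by
  let f : V → MT φ := fun v => MT.t φ * MT.inc φ (η v)
  have hf : ∀ x ∈ Set.range L.rel, FreeGroup.lift f x = 1 := by
    rintro _ ⟨e, rfl⟩
    simp only [LOG.rel, map_mul, map_inv, FreeGroup.lift_apply_of]
    rw [mul_inv_eq_one, mul_inv_eq_iff_eq_mul]
    show MT.t φ * MT.inc φ (η (L.ini e)) * (MT.t φ * MT.inc φ (η (L.lab e))) =
      MT.t φ * MT.inc φ (η (L.lab e)) * (MT.t φ * MT.inc φ (η (L.ter e)))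
    have h1 := MT.rel φ ((η (L.lab e))⁻¹ * η (L.ini e))
    rw [hφ, map_mul, map_mul, map_inv] at h1
    generalize MT.inc φ (η (L.ini e)) = a at *
    generalize MT.inc φ (η (L.lab e)) = c at *
    generalize MT.inc φ (η (L.ter e)) = b at *
    generalize MT.t φ = t at *
    have h2 : b = t⁻¹ * (c⁻¹ * a) * t * c := by rw [h1]; group
    rw [h2]
    group
  let F : L.G →* MT φ := PresentedGroup.toGroup hf
  have hF : ∀ v, F (L.gen v) = MT.t φ * MT.inc φ (η v) := fun v => PresentedGroup.toGroup.of _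
  let κ : FreeGroup S →* L.G := L.pr.comp Ψ
  have hκ : ∀ v, κ (η v) = (L.gen r)⁻¹ * L.gen v := h2
  let f' : Option S → L.G := fun o => o.elim (L.gen r) fun v => κ (FreeGroup.of v)
  have hmap : ∀ w, FreeGroup.lift f' (FreeGroup.map some w) = κ w := by
    intro w
    have : (FreeGroup.lift f').comp (FreeGroup.map some) = κ := by
      ext v
      simp [f']
    exact DFunLike.congr_fun this w
  have hf' : ∀ x ∈ {y : FreeGroup (Option S) | ∃ w : FreeGroup S, y =
      (FreeGroup.of none)⁻¹ * FreeGroup.map some w * FreeGroup.of none *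
        (FreeGroup.map some (φ w))⁻¹}, FreeGroup.lift f' x = 1 := by
    rintro _ ⟨w, rfl⟩
    rw [map_mul, map_mul, map_mul, map_inv, map_inv, hmap, hmap, FreeGroup.lift_apply_of,
      mul_inv_eq_one]
    exact (h3 w).symm
  let F' : MT φ →* L.G := PresentedGroup.toGroup hf'
  have hF't : F' (MT.t φ) = L.gen r := PresentedGroup.toGroup.of _
  have hF'i : ∀ w, F' (MT.inc φ w) = κ w := fun w => hmap w
  have h1 : F'.comp F = MonoidHom.id _ := by
    apply PresentedGroup.ext
    intro v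
    show F' (F (L.gen v)) = L.gen v
    rw [hF, map_mul, hF't, hF'i, hκ, mul_inv_cancel_left]
  have hκb : ∀ b : S, κ (FreeGroup.of b) = (L.gen (L.lab b))⁻¹ * L.gen (L.ini b) := by
    intro b
    rw [← hb b, map_mul, map_inv, hκ, hκ]
    group
  have hFb : ∀ b : S, F ((L.gen (L.lab b))⁻¹ * L.gen (L.ini b)) = MT.inc φ (FreeGroup.of b) := by
    intro b
    rw [map_mul, map_inv, hF, hF, ← hb b, map_mul, map_inv]
    group
  have h2' : F.comp F' = MonoidHom.id _ := by
    apply PresentedGroup.ext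
    intro o
    cases o with
    | none =>
      show F (F' (MT.t φ)) = MT.t φ
      rw [hF't, hF, h0, map_one, mul_one]
    | some v =>
      have h3 : (PresentedGroup.of (some v) : MT φ) = MT.inc φ (FreeGroup.of v) := by
        show _ = PresentedGroup.mk _ (FreeGroup.map some (FreeGroup.of v))
        rw [FreeGroup.map.of]
        rfl
      show F (F' (PresentedGroup.of (some v))) = PresentedGroup.of (some v)
      rw [h3, hF'i, hκb, hFb]
  refine ⟨φ, MulEquiv.mk' ⟨F, F', fun x => DFunLike.congr_fun h1 x,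
    fun x => DFunLike.congr_fun h2' x⟩ (map_mul F), ?_, hFb⟩
  show F (L.gen r) = MT.t φ
  rw [hF, h0, map_one, mul_one]

variable {V E : Type} [Fintype V] [Fintype E] [DecidableEq V] [DecidableEq E]

theorem tor (L : LOG V E) (hcard : Fintype.card V = Fintype.card E + 1)
    (hu : ∃! S : Set E, Mix L.ini L.ter L.lab S ∧ Spans L.ini L.lab S) (r : V) (S : Set E)
    (hS : Mix L.ini L.ter L.lab S ∧ Spans L.ini L.lab S) : IsTor L r S := by
  obtain ⟨S', η, φ, Ψ, hS', h0, hb, hφ, h2, h3⟩ := sol Pool.Agent.N195.UDDUAL.main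
    Pool.Agent.N667.UDC.main Pool.Agent.N281.UDEXCH.main Pool.Agent.N933.UE.main
    Pool.Agent.N723.UE_FIX.main Pool.Agent.N806.UE_PER.main L hcard hu r
  obtain rfl : S = S' := hu.unique hS hS'
  exact isTor_of L r S η φ Ψ h0 hb hφ h2 h3

end Pool.Agent.N819.UD
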